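import Pool.Agent.Helper54.SP.Stmts

/-! Module ORD: one-sided fans force the orders. -/

set_option autoImplicit false

namespace Pool.Agent.Helper54.SP

open Finset

theorem ord_fan (hADJ0 : ST_ADJ0) (hADJ : ST_ADJ) (hLINK : ST_LINK) (N m : ℕ) (X : ℕ → ℕ → ℝ)
    (c o : ℕ) (S : ℕ → Prop) (key : ℕ → ℕ) (hc : c < m) (ho : o < N) (hSo : ∀ p, S p → p ≠ o)
    (hinj : ∀ p q, p < N → q < N → S p → S q → key p = key q → p = q)
    (hOS : ∀ p q, Nbr N S key p q → OS (3 + m) X (N + m) ([o, p, q] ++ aex N m c)) :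
    ∀ p q p' q', Nbr N S key p q → Nbr N S key p' q' →
      0 < br N m X o p q * br N m X o p' q' := by
  refine hLINK N S key (fun p q => br N m X o p q) hinj ?_ ?_
  · intro p q h
    exact hADJ0 N m X c o p q hc ho h.1 h.2.1 (hOS p q h)
  · intro p q r h h'
    refine hADJ N m X c o p q r hc ?_ ho h.1 h.2.1 h'.2.1 (hOS p q h) (hOS q r h')
    have e1 : key p < key q := h.2.2.2.2.1
    have e2 : key q < key r := h'.2.2.2.2.1
    have n1 : p ≠ q := by rintro rfl; omega
    have n2 : q ≠ r := by rintro rfl; omega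
    have n3 : p ≠ r := by rintro rfl; omega
    have m1 := hSo p h.2.2.1
    have m2 := hSo q h.2.2.2.1
    have m3 := hSo r h'.2.2.2.1
    simp only [List.nodup_cons, List.mem_cons, List.not_mem_nil, or_false, not_or,
      not_false_eq_true, List.nodup_nil, and_true]
    exact ⟨⟨m1.symm, m2.symm, m3.symm⟩, ⟨n1, n3⟩, n2⟩

theorem ord_sign {τ A A' E E' : ℝ} (hτ : τ ≠ 0) (hA : 0 < A) (hA' : 0 < A')
    (h : 0 < τ * A * E * (τ * A' * E')) : 0 < E * E' := by
  have h1 : τ * A * E * (τ * A' * E') = (τ ^ 2 * A * A') * (E * E') := by ring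
  rw [h1] at h
  have h2 : 0 < τ ^ 2 * A * A' := by positivity
  exact (pos_iff_pos_of_mul_pos h).1 h2

theorem ord_slope {x1 y1 x2 y2 x3 y3 : ℝ} (h1 : 0 < x1) (h2 : 0 < x2) (h3 : 0 < x3)
    (h : y2 * x1 < y1 * x2) (h' : y3 * x2 < y2 * x3) : y3 * x1 < y1 * x3 := by
  have e1 : y3 * x2 * x1 < y2 * x3 * x1 := mul_lt_mul_of_pos_right h' h1
  have e2 : y2 * x1 * x3 < y1 * x2 * x3 := mul_lt_mul_of_pos_right h h3
  have e3 : (y3 * x1) * x2 < (y1 * x3) * x2 := by nlinarith
  exact lt_of_mul_lt_mul_right e3 h2.le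

/-- the reference pair of neighbours in a gate -/
theorem ord_ref (Γ : List Gt) (p : ℕ) (hp : 4 ≤ p) (hpN : p < NN Γ) :
    ∃ p0 q0, 4 ≤ p0 ∧ 4 ≤ q0 ∧ p0 < NN Γ ∧ q0 < NN Γ ∧ gat Γ p0 = gat Γ p ∧ gat Γ q0 = gat Γ p ∧
      sk Γ q0 = sk Γ p0 + 1 ∧ xk p0 < xk q0 ∧ yk Γ q0 < yk Γ p0 := by
  have hK : NN Γ = 4 + 8 * Γ.length := rfl
  have hg1 : 1 ≤ grp p := by unfold grp; omega
  have hg2 : grp p ≤ Γ.length := by unfold grp; omega
  have g0 : grp (8 * grp p - 4) = grp p := by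
    generalize grp p = g at *
    unfold grp
    omega
  have g1 : grp (8 * grp p - 3) = grp p := by
    generalize grp p = g at *
    unfold grp
    omega
  have c0 : crn (8 * grp p - 4) = 0 := by unfold crn; omega
  have c1 : crn (8 * grp p - 3) = 1 := by unfold crn; omega
  have t0 : gat Γ (8 * grp p - 4) = gat Γ p := by unfold gat; rw [g0]
  have t1 : gat Γ (8 * grp p - 3) = gat Γ p := by unfold gat; rw [g1]
  have hi0 : hi Γ (8 * grp p - 4) = decide ((gat Γ p).a < (gat Γ p).u) := by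
    unfold hi
    rw [c0, t0, if_neg (by omega)]
  have hi1 : hi Γ (8 * grp p - 3) = decide ((gat Γ p).a < (gat Γ p).u) := by
    unfold hi
    rw [c1, t1, if_neg (by omega)]
  have w0 : wir Γ (8 * grp p - 4) = (gat Γ p).u := by
    unfold wir
    rw [c0, t0]
    simp
  have w1 : wir Γ (8 * grp p - 3) = (gat Γ p).u := by
    unfold wir
    rw [c1, t1]
    simp
  have y0 : yk Γ (8 * grp p - 4) = 2 + (gat Γ p).u * (2 * Γ.length) +
      (Γ.length + (gat Γ p).c) := by
    unfold yk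
    rw [if_neg (by omega), w0, c0, t0, if_pos (by omega)]
  have y1 : yk Γ (8 * grp p - 3) = 2 + (gat Γ p).u * (2 * Γ.length) +
      (Γ.length - 1 - (gat Γ p).c) := by
    unfold yk
    rw [if_neg (by omega), w1, c1, t1, if_neg (by omega)]
  have x0 : xk (8 * grp p - 4) = 8 * grp p - 6 + 0 := by
    unfold xk
    rw [if_neg (by omega), c0, g0]
    rfl
  have x1 : xk (8 * grp p - 3) = 8 * grp p - 6 + 3 := by
    unfold xk
    rw [if_neg (by omega), c1, g1]
    rfl
  refine ⟨8 * grp p - 4, 8 * grp p - 3, by omega, by omega, by omega, by omega, t0, t1, ?_, ?_, ?_⟩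
  · unfold sk
    rw [g0, g1, c0, c1, hi0, hi1]
    have e0 : sr 0 = 2 := rfl
    have e1 : sr 1 = 1 := rfl
    rw [e0, e1]
    split_ifs <;> omega
  · rw [x0, x1]
    omega
  · rw [y0, y1]
    omega

theorem st_ORD (hADJ : ST_ADJ) (hADJ0 : ST_ADJ0) (hHUL : ST_HUL) (hBR : ST_BR) (hNORM : ST_NORM)
    (hDT3 : ST_DT3) (hMONO : ST_MONO) (hLINK : ST_LINK) (hKINJ : ST_KINJ) : ST_ORD := by
  intro Γ nw m X hWF hm hF
  obtain ⟨f1, f2, f3, f4, f5, f6, f7⟩ := hF
  obtain ⟨k1, k2, k3, -, k5⟩ := hKINJ Γ nw hWF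
  obtain ⟨N, hN⟩ : ∃ N, N = NN Γ := ⟨_, rfl⟩
  have hN4 : 4 ≤ N := by rw [hN]; unfold NN; omega
  rw [← hN] at f1 f2 f3 f4 f5 f6 f7
  rw [← hN] at k1 k2 k3 k5
  -- the hull
  have hb2 : 0 < br N m X 0 1 2 * br N m X 0 1 2 :=
    hHUL N m X 0 1 2 2 (by omega) (by omega) (by omega) (by omega) (by omega) (by omega)
      (by omega) (by omega) f5
  have hb : br N m X 0 1 2 ≠ 0 := by
    intro h
    rw [h] at hb2
    simp at hb2
  obtain ⟨x, y, w, τ, hτ, hw, hx2, hy2, hx3, hy3, hfor⟩ := hNORM N m X hN4 hb (by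
    intro p hp hpN
    refine ⟨?_, ?_, ?_⟩
    · exact hHUL N m X 0 1 2 p (by omega) (by omega) (by omega) hpN (by omega) (by omega)
        (by omega) (by omega) f5
    · have h := hHUL N m X 0 2 1 p (by omega) (by omega) (by omega) hpN (by omega) (by omega)
        (by omega) (by omega) f6
      rw [(hBR N m X 0 1 2).2.1, (hBR N m X 0 p 2).2.1] at h
      linarith
    · have h := hHUL N m X 1 2 0 p (by omega) (by omega) (by omega) hpN (by omega) (by omega)
        (by omega) (by omega) f7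
      rw [(hBR N m X 0 1 2).2.2.1, (hBR N m X p 1 2).2.2.1] at h
      exact h)
  obtain ⟨-, d0, d1, d2⟩ := hDT3 x y
  have hw0 := hw 0 (by omega)
  have hw1 := hw 1 (by omega)
  have hw2 := hw 2 (by omega)
  have hw3 := hw 3 (by omega)
  -- order of the abscissas
  have hxo : ∀ p q, p < N → q < N → 2 ≤ p → 2 ≤ q → xk p < xk q → x p < x q := by
    refine hMONO N (fun p => 2 ≤ p) xk (fun p q => x p < x q)
      (fun p q hp hq h h' e => k1 p q h h' hp hq e)
      (fun p q r _ _ _ _ _ _ h h' => h.trans h') ?_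
    intro p q h
    have hn : Nbr N (fun p => 2 ≤ p) xk 2 3 := by
      have e2 : xk 2 = 0 := by simp [xk]
      have e3 : xk 3 = 1 := by simp [xk]
      refine ⟨by omega, by omega, le_rfl, by omega, ?_, ?_⟩
      · rw [e2, e3]; omega
      · intro r _ _
        rw [e2, e3]
        omega
    have h1 := ord_fan hADJ0 hADJ hLINK N m X 0 0 (fun p => 2 ≤ p) xk (by omega) (by omega)
      (fun p hp => by omega) (fun p q hp hq h h' e => k1 p q h h' hp hq e) f1 p q 2 3 h hn
    rw [hfor 0 p q (by omega) h.1 h.2.1, hfor 0 2 3 (by omega) (by omega) (by omega),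
      d0 p q h.2.2.1 h.2.2.2.1, d0 2 3 le_rfl (by omega), hx2, hx3] at h1
    have h2 := ord_sign hτ (mul_pos (mul_pos hw0 (hw p h.1)) (hw q h.2.1))
      (mul_pos (mul_pos hw0 hw2) hw3) h1
    show x p < x q
    linarith
  have hyo : ∀ p q, p < N → q < N → 2 ≤ p → 2 ≤ q → yk Γ p < yk Γ q → y p < y q := by
    refine hMONO N (fun p => 2 ≤ p) (yk Γ) (fun p q => y p < y q)
      (fun p q hp hq h h' e => k2 p q h h' hp hq e)
      (fun p q r _ _ _ _ _ _ h h' => h.trans h') ?_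
    intro p q h
    have hn : Nbr N (fun p => 2 ≤ p) (yk Γ) 2 3 := by
      have e2 : yk Γ 2 = 0 := by simp [yk]
      have e3 : yk Γ 3 = 1 := by simp [yk]
      refine ⟨by omega, by omega, le_rfl, by omega, ?_, ?_⟩
      · rw [e2, e3]; omega
      · intro r _ _
        rw [e2, e3]
        omega
    have h1 := ord_fan hADJ0 hADJ hLINK N m X 1 1 (fun p => 2 ≤ p) (yk Γ) (by omega) (by omega)
      (fun p hp => by omega) (fun p q hp hq h h' e => k2 p q h h' hp hq e) f2 p q 2 3 h hn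
    rw [hfor 1 p q (by omega) h.1 h.2.1, hfor 1 2 3 (by omega) (by omega) (by omega),
      d1 p q h.2.2.1 h.2.2.2.1, d1 2 3 le_rfl (by omega), hy2, hy3] at h1
    have h2 := ord_sign hτ (mul_pos (mul_pos hw1 (hw p h.1)) (hw q h.2.1))
      (mul_pos (mul_pos hw1 hw2) hw3) h1
    show y p < y q
    linarith
  -- all other points have coordinates larger than one
  have hgt : ∀ p, 4 ≤ p → p < N → 1 < x p ∧ 1 < y p := by
    intro p hp hpN
    obtain ⟨-, h1, h2, -⟩ := k5 p hp hpN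
    constructor
    · rw [← hx3]
      refine hxo 3 p (by omega) hpN (by omega) (by omega) ?_
      have e3 : xk 3 = 1 := by simp [xk]
      omega
    · rw [← hy3]
      refine hyo 3 p (by omega) hpN (by omega) (by omega) ?_
      have e3 : yk Γ 3 = 1 := by simp [yk]
      omega
  refine ⟨x, y, hx2, hy2, hx3, hy3, ?_, ?_, ?_⟩
  · intro p q hp hq hpN hqN h
    rw [← hN] at hpN hqN
    exact hxo p q hpN hqN hp hq h
  · intro p q hp hq hpN hqN h
    rw [← hN] at hpN hqN
    exact hyo p q hpN hqN hp hq h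
  · -- the slopes
    intro b p q hp hq hpN hqN hpq
    rw [← hN] at hpN hqN
    obtain ⟨o, ho2, ho4, hxo', hyo', hfan⟩ : ∃ o, 2 ≤ o ∧ o < 4 ∧ x o = cen b ∧ y o = cen b ∧
        ∀ p q, Nbr N (Sty Γ b) (sk Γ) p q → OS (3 + m) X (N + m) ([o, p, q] ++ aex N m 2) := by
      cases b
      · exact ⟨2, by omega, by omega, by simp [cen, hx2], by simp [cen, hy2], f4⟩
      · exact ⟨3, by omega, by omega, by simp [cen, hx3], by simp [cen, hy3], f3⟩
    have hcen : cen b ≤ 1 := by
      cases b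
      · simp [cen]
      · simp [cen]
    have hwo := hw o (by omega)
    have hinj : ∀ p q, p < N → q < N → Sty Γ b p → Sty Γ b q → sk Γ p = sk Γ q → p = q :=
      fun p q hp hq h h' e => k3 p q h.1 h'.1 hp hq e
    have hpos : ∀ p, Sty Γ b p → p < N → 0 < x p - cen b ∧ 0 < y p - cen b := by
      intro p hp hpN
      obtain ⟨h1, h2⟩ := hgt p hp.1 hpN
      constructor <;> linarith
    obtain ⟨p0, q0, r1, r2, r3, r4, r5, r6, r7, r8, r9⟩ := ord_ref Γ p hp.1 (by rw [← hN]; exact hpN)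
    rw [← hN] at r3 r4
    have s0 : Sty Γ b p0 := ⟨r1, by rw [r5]; exact hp.2⟩
    have s1 : Sty Γ b q0 := ⟨r2, by rw [r6]; exact hp.2⟩
    have hn0 : Nbr N (Sty Γ b) (sk Γ) p0 q0 :=
      ⟨r3, r4, s0, s1, by omega, fun r _ _ => by omega⟩
    have hE0 : (x p0 - x o) * (y q0 - y o) - (x q0 - x o) * (y p0 - y o) < 0 := by
      rw [hxo', hyo']
      have h1 := hpos p0 s0 r3
      have h2 := hpos q0 s1 r4
      have h3 := hxo p0 q0 r3 r4 (by omega) (by omega) r8
      have h4 := hyo q0 p0 r4 r3 (by omega) (by omega) r9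
      nlinarith [mul_pos h1.1 h2.2, mul_pos h1.1 h1.2]
    have hall := hMONO N (Sty Γ b) (sk Γ)
      (fun p q => (y q - cen b) * (x p - cen b) < (y p - cen b) * (x q - cen b)) hinj
      (fun p q r hp hq hr sp sq sr h h' =>
        ord_slope (hpos p sp hp).1 (hpos q sq hq).1 (hpos r sr hr).1 h h') (by
      intro p' q' h
      have h1 := ord_fan hADJ0 hADJ hLINK N m X 2 o (Sty Γ b) (sk Γ) (by omega) (by omega)
        (fun p hp => by have := hp.1; omega) hinj hfan p' q' p0 q0 h hn0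
      have s4 := h.2.2.1.1
      have s5 := h.2.2.2.1.1
      rw [hfor o p' q' (by omega) h.1 h.2.1, hfor o p0 q0 (by omega) r3 r4,
        d2 o p' q' (by omega) (by omega) (by omega),
        d2 o p0 q0 (by omega) (by omega) (by omega)] at h1
      have h2 := ord_sign hτ (mul_pos (mul_pos hwo (hw p' h.1)) (hw q' h.2.1))
        (mul_pos (mul_pos hwo (hw p0 r3)) (hw q0 r4)) h1
      have h3 : (x p' - x o) * (y q' - y o) - (x q' - x o) * (y p' - y o) < 0 :=
        neg_of_mul_pos_left h2 hE0.le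
      rw [hxo', hyo'] at h3
      show (y q' - cen b) * (x p' - cen b) < (y p' - cen b) * (x q' - cen b)
      linarith)
    exact hall p q hpN hqN hp hq hpq

end Pool.Agent.Helper54.SP
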